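import Mathlib

/-!
# The local dimension of the Boolean lattice

The Boolean lattice `2^4` has local dimension at most `3`, and the local dimension is subadditive for
products. Hence `ldim (2^n) ≤ n - ⌊n / 4⌋`, and `ldim (2^n) < n` for all `n ≥ 4`.
-/

set_option autoImplicit false

namespace Pool.Agent.Results.MP_666a49_co.BooleanLattice

section Defs

variable {P : Type} [PartialOrder P]

/-- A partial linear extension, given as the list of its elements in increasing order: no element
comes after an element which is larger or equal. -/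
def IsPle (L : List P) : Prop := L.Pairwise fun a b => ¬ b ≤ a

/-- `L` contains `a` and `b`, and `a` comes before `b`. -/
def Before (L : List P) (a b : P) : Prop := [a, b].Sublist L

/-- The family `R` is a local realizer. -/
def IsLocalRealizer (R : List (List P)) : Prop :=
  (∀ L ∈ R, IsPle L) ∧
  (∀ a b, a < b → ∃ L ∈ R, Before L a b) ∧
  (∀ a b, ¬ a ≤ b → ¬ b ≤ a → (∃ L ∈ R, Before L a b) ∧ ∃ L ∈ R, Before L b a)

open Classical in
/-- The number of members of `R` which contain `a`. -/
noncomputable def freq (R : List (List P)) (a : P) : ℕ := R.countP fun L => decide (a ∈ L)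

end Defs

/-- There is a local realizer in which every element lies in at most `d` members. -/
def Has (P : Type) [PartialOrder P] (d : ℕ) : Prop :=
  ∃ R : List (List P), IsLocalRealizer R ∧ ∀ a, freq R a ≤ d

/-- The local dimension. -/
noncomputable def ldim (P : Type) [PartialOrder P] : ℕ := sInf {d | Has P d}

section General

variable {P Q : Type} [PartialOrder P] [PartialOrder Q]

lemma isLocalRealizer_iff (R : List (List P)) : IsLocalRealizer R ↔
    (∀ L ∈ R, IsPle L) ∧ ∀ a b, ¬ b ≤ a → ∃ L ∈ R, Before L a b := by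
  constructor
  · rintro ⟨h1, h2, h3⟩
    refine ⟨h1, fun a b hab => ?_⟩
    by_cases h : a ≤ b
    · exact h2 a b (lt_of_le_not_ge h hab)
    · exact (h3 a b h hab).1
  · rintro ⟨h1, h2⟩
    exact ⟨h1, fun a b hab => h2 a b hab.not_ge, fun a b hab hba => ⟨h2 a b hba, h2 b a hab⟩⟩

/-- The identity map from the linear extension back to the ordered set. -/
def back : LinearExtension Q → Q := fun x => x

/-- A finite ordered set has a linear extension. -/
lemma exists_linear [Fintype Q] : ∃ E : List Q, IsPle E ∧ ∀ y, y ∈ E := by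
  classical
  let U : Finset (LinearExtension Q) :=
    Finset.univ.image (toLinearExtension : Q → LinearExtension Q)
  let l : List (LinearExtension Q) := U.sort (· ≤ ·)
  refine ⟨l.map back, ?_, fun y => ?_⟩
  · rw [IsPle, List.pairwise_map]
    have h1 : l.Pairwise (· < ·) := (Finset.sortedLT_sort U).pairwise
    refine List.Pairwise.imp ?_ h1
    intro a b hab hba
    have h2 : toLinearExtension (back b) ≤ toLinearExtension (back a) :=
      toLinearExtension.monotone hba
    exact absurd hab (not_lt.2 h2)
  · have h : toLinearExtension y ∈ U := Finset.mem_image_of_mem _ (Finset.mem_univ y)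
    have h2 : toLinearExtension y ∈ l := (Finset.mem_sort _).2 h
    exact List.mem_map.2 ⟨_, h2, rfl⟩

omit [PartialOrder P] [PartialOrder Q] in
lemma Before.map {f : P → Q} {L : List P} {a b : P} (h : Before L a b) :
    Before (L.map f) (f a) (f b) := List.Sublist.map f h

omit [PartialOrder P] in
lemma before_flatMap_of_before {L : List P} {a b : P} (h : Before L a b) {α : Type}
    (g : P → List α) {u v : α} (hu : u ∈ g a) (hv : v ∈ g b) : [u, v].Sublist (L.flatMap g) := by
  have h1 : ([a, b].flatMap g).Sublist (L.flatMap g) := by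
    rw [List.flatMap_def, List.flatMap_def]
    exact (List.Sublist.map g h).flatten
  refine List.Sublist.trans ?_ h1
  have h2 : [a, b].flatMap g = g a ++ g b := by simp
  rw [h2]
  have h3 : [u, v] = [u] ++ [v] := rfl
  rw [h3]
  exact List.Sublist.append (List.singleton_sublist.2 hu) (List.singleton_sublist.2 hv)

lemma Has.congr (e : P ≃o Q) {d : ℕ} (h : Has P d) : Has Q d := by
  classical
  obtain ⟨R, hR, hf⟩ := h
  rw [isLocalRealizer_iff] at hR
  refine ⟨R.map (List.map e), ?_, fun a => ?_⟩
  · rw [isLocalRealizer_iff]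
    constructor
    · intro L' hL'
      obtain ⟨L, hL, rfl⟩ := List.mem_map.1 hL'
      rw [IsPle, List.pairwise_map]
      refine List.Pairwise.imp ?_ (hR.1 L hL)
      intro a b hab hba
      exact hab (e.le_iff_le.1 hba)
    · intro a b hab
      obtain ⟨L, hL, hLab⟩ := hR.2 (e.symm a) (e.symm b) (fun h => hab (e.symm.le_iff_le.1 h))
      refine ⟨L.map e, List.mem_map_of_mem hL, ?_⟩
      have := hLab.map (f := e)
      rwa [e.apply_symm_apply, e.apply_symm_apply] at this
  · refine le_trans (le_of_eq ?_) (hf (e.symm a))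
    unfold freq
    rw [List.countP_map]
    congr 1
    funext L
    simp only [Function.comp, decide_eq_decide]
    constructor
    · intro h
      obtain ⟨x, hx, rfl⟩ := List.mem_map.1 h
      rwa [e.symm_apply_apply]
    · intro h
      exact List.mem_map.2 ⟨_, h, e.apply_symm_apply a⟩

/-- The local dimension is subadditive for products. -/
lemma Has.prod [Fintype P] [Fintype Q] {d d' : ℕ} (h : Has P d) (h' : Has Q d') :
    Has (P × Q) (d + d') := by
  classical
  obtain ⟨R, hR, hf⟩ := h
  obtain ⟨R', hR', hf'⟩ := h'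
  rw [isLocalRealizer_iff] at hR hR'
  obtain ⟨E, hE, hEm⟩ := exists_linear (Q := P)
  obtain ⟨E', hE', hEm'⟩ := exists_linear (Q := Q)
  let F : List P → List (P × Q) := fun L => L.flatMap fun x => E'.map fun y => (x, y)
  let F' : List Q → List (P × Q) := fun L => L.flatMap fun y => E.map fun x => (x, y)
  have hF : ∀ L : List P, ∀ u : P × Q, u ∈ F L ↔ u.1 ∈ L := by
    rintro L ⟨x, y⟩
    simp only [F, List.mem_flatMap, List.mem_map, Prod.mk.injEq]
    constructor
    · rintro ⟨x', hx', y', -, rfl, rfl⟩
      exact hx'
    · intro hx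
      exact ⟨x, hx, y, hEm' y, rfl, rfl⟩
  have hF' : ∀ L : List Q, ∀ u : P × Q, u ∈ F' L ↔ u.2 ∈ L := by
    rintro L ⟨x, y⟩
    simp only [F', List.mem_flatMap, List.mem_map, Prod.mk.injEq]
    constructor
    · rintro ⟨y', hy', x', -, rfl, rfl⟩
      exact hy'
    · intro hy
      exact ⟨y, hy, x, hEm x, rfl, rfl⟩
  refine ⟨R.map F ++ R'.map F', ?_, ?_⟩
  · rw [isLocalRealizer_iff]
    constructor
    · intro L' hL'
      rw [List.mem_append] at hL'
      rcases hL' with hL' | hL'
      · obtain ⟨L, hL, rfl⟩ := List.mem_map.1 hL'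
        rw [IsPle, List.pairwise_flatMap]
        constructor
        · intro x _
          rw [List.pairwise_map]
          refine List.Pairwise.imp ?_ hE'
          intro y y' hyy h
          exact hyy h.2
        · refine List.Pairwise.imp ?_ (hR.1 L hL)
          intro x x' hxx u hu v hv h
          obtain ⟨y, -, rfl⟩ := List.mem_map.1 hu
          obtain ⟨y', -, rfl⟩ := List.mem_map.1 hv
          exact hxx h.1
      · obtain ⟨L, hL, rfl⟩ := List.mem_map.1 hL'
        rw [IsPle, List.pairwise_flatMap]
        constructor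
        · intro x _
          rw [List.pairwise_map]
          refine List.Pairwise.imp ?_ hE
          intro y y' hyy h
          exact hyy h.1
        · refine List.Pairwise.imp ?_ (hR'.1 L hL)
          intro x x' hxx u hu v hv h
          obtain ⟨y, -, rfl⟩ := List.mem_map.1 hu
          obtain ⟨y', -, rfl⟩ := List.mem_map.1 hv
          exact hxx h.2
    · rintro ⟨x, y⟩ ⟨x', y'⟩ hab
      by_cases hx : x' ≤ x
      · have hy : ¬ y' ≤ y := fun hy => hab ⟨hx, hy⟩
        obtain ⟨L, hL, hLy⟩ := hR'.2 y y' hy
        refine ⟨F' L, List.mem_append_right _ (List.mem_map_of_mem hL), ?_⟩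
        exact before_flatMap_of_before hLy _ (List.mem_map.2 ⟨x, hEm x, rfl⟩)
          (List.mem_map.2 ⟨x', hEm x', rfl⟩)
      · obtain ⟨L, hL, hLx⟩ := hR.2 x x' hx
        refine ⟨F L, List.mem_append_left _ (List.mem_map_of_mem hL), ?_⟩
        exact before_flatMap_of_before hLx _ (List.mem_map.2 ⟨y, hEm' y, rfl⟩)
          (List.mem_map.2 ⟨y', hEm' y', rfl⟩)
  · intro u
    have h1 : freq (R.map F ++ R'.map F') u = freq R u.1 + freq R' u.2 := by
      unfold freq
      rw [List.countP_append, List.countP_map, List.countP_map]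
      congr 1
      · congr 1
        funext L
        simp only [Function.comp, decide_eq_decide]
        exact hF L u
      · congr 1
        funext L
        simp only [Function.comp, decide_eq_decide]
        exact hF' L u
    rw [h1]
    exact Nat.add_le_add (hf u.1) (hf' u.2)

/-- Some number of members is enough. -/
lemma has_card [Fintype P] : ∃ d, Has P d := by
  classical
  -- for each pair `a`, `b` with `¬ b ≤ a`, the list `[a, b]`
  let R : List (List P) :=
    ((Finset.univ : Finset (P × P)).filter fun u => ¬ u.2 ≤ u.1).toList.map fun u => [u.1, u.2]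
  refine ⟨R.length, R, ?_, fun a => List.countP_le_length⟩
  rw [isLocalRealizer_iff]
  constructor
  · intro L hL
    obtain ⟨u, hu, rfl⟩ := List.mem_map.1 hL
    rw [Finset.mem_toList, Finset.mem_filter] at hu
    rw [IsPle, List.pairwise_pair]
    exact hu.2
  · intro a b hab
    refine ⟨[a, b], List.mem_map.2 ⟨(a, b), ?_, rfl⟩, List.Sublist.refl _⟩
    rw [Finset.mem_toList, Finset.mem_filter]
    exact ⟨Finset.mem_univ _, hab⟩

/-- The local dimension is subadditive for products. -/
lemma ldim_prod [Fintype P] [Fintype Q] : ldim (P × Q) ≤ ldim P + ldim Q := by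
  have h1 : Has P (ldim P) := Nat.sInf_mem (has_card (P := P))
  have h2 : Has Q (ldim Q) := Nat.sInf_mem (has_card (P := Q))
  exact Nat.sInf_le (h1.prod h2)

end General

/-! ## The Boolean lattice -/

/-- The set with binary code `k`. -/
def code (k : ℕ) : Finset (Fin 4) := Finset.univ.filter fun i => k.testBit i.val

/-- The local realizer of `2^4`. -/
def R4 : List (List ℕ) :=
  [[1, 5, 2, 3, 7, 8, 10, 9],
   [0, 4, 6, 8, 12, 14, 1, 9, 5, 11, 13, 15],
   [0, 9, 4, 12, 13, 2, 6, 10, 14, 3, 7, 11, 15],
   [0, 8, 2, 10, 1, 3, 11, 4, 5, 6, 7, 12, 14, 13, 15]]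

lemma code_le : ∀ a < 16, ∀ b < 16, (code a ≤ code b ↔ a &&& b = a) := by decide +kernel

lemma code_surj : ∀ s : Finset (Fin 4), ∃ k < 16, code k = s := by decide +kernel

lemma code_inj : ∀ a < 16, ∀ b < 16, code a = code b → a = b := by decide +kernel

lemma R4_lt : ∀ L ∈ R4, ∀ a ∈ L, a < 16 := by decide

lemma R4_ple : ∀ L ∈ R4, L.Pairwise fun a b => ¬ (b &&& a = b) := by decide

lemma R4_pair : ∀ a < 16, ∀ b < 16, ¬ (b &&& a = b) → ∃ L ∈ R4, [a, b].Sublist L := by
  decide +kernel

lemma R4_freq : ∀ k < 16, (R4.countP fun L => decide (k ∈ L)) ≤ 3 := by decide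

lemma has_four : Has (Finset (Fin 4)) 3 := by
  classical
  refine ⟨R4.map (List.map code), ?_, fun s => ?_⟩
  · rw [isLocalRealizer_iff]
    constructor
    · intro L' hL'
      obtain ⟨L, hL, rfl⟩ := List.mem_map.1 hL'
      rw [IsPle, List.pairwise_map]
      refine List.Pairwise.imp_of_mem ?_ (R4_ple L hL)
      intro a b ha hb hab hba
      exact hab ((code_le b (R4_lt L hL b hb) a (R4_lt L hL a ha)).1 hba)
    · intro s t hst
      obtain ⟨a, ha, rfl⟩ := code_surj s
      obtain ⟨b, hb, rfl⟩ := code_surj t
      obtain ⟨L, hL, hab⟩ := R4_pair a ha b hb fun h => hst ((code_le b hb a ha).2 h)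
      exact ⟨L.map code, List.mem_map_of_mem hL, Before.map (f := code) hab⟩
  · obtain ⟨k, hk, rfl⟩ := code_surj s
    refine le_trans (le_of_eq ?_) (R4_freq k hk)
    unfold freq
    rw [List.countP_map]
    refine List.countP_congr fun L hL => ?_
    simp only [Function.comp, decide_eq_true_eq]
    constructor
    · intro h
      obtain ⟨a, ha, hak⟩ := List.mem_map.1 h
      rw [← code_inj a (R4_lt L hL a ha) k hk hak]
      exact ha
    · intro h
      exact List.mem_map_of_mem h

lemma has_one : Has (Finset (Fin 1)) 1 := by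
  classical
  refine ⟨[[∅, {0}]], ?_, fun s => ?_⟩
  · rw [isLocalRealizer_iff]
    constructor
    · intro L hL
      rw [List.mem_singleton] at hL
      subst hL
      rw [IsPle, List.pairwise_pair]
      decide
    · intro s t hst
      have h : ∀ s t : Finset (Fin 1), ¬ t ≤ s → s = ∅ ∧ t = {0} := by decide
      obtain ⟨rfl, rfl⟩ := h s t hst
      exact ⟨_, List.mem_singleton.2 rfl, List.Sublist.refl _⟩
  · unfold freq
    exact List.countP_le_length

/-- `2^(m+n)` is the product of `2^m` and `2^n`. -/
def splitIso (m n : ℕ) : Finset (Fin m) × Finset (Fin n) ≃o Finset (Fin (m + n)) :=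
  Finset.sumEquiv.symm.trans
    { toEquiv := finSumFinEquiv.finsetCongr
      map_rel_iff' := by
        intro s t
        simp [Equiv.finsetCongr_apply] }

lemma Has.add {m n d d' : ℕ} (h : Has (Finset (Fin m)) d) (h' : Has (Finset (Fin n)) d') :
    Has (Finset (Fin (m + n))) (d + d') := (h.prod h').congr (splitIso m n)

lemma has_zero : Has (Finset (Fin 0)) 0 := by
  refine ⟨[], ?_, fun s => ?_⟩
  · rw [isLocalRealizer_iff]
    constructor
    · intro L hL
      exact absurd hL List.not_mem_nil
    · intro s t hst
      exact absurd (Subsingleton.elim t s).le hst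
  · unfold freq
    simp

lemma has_all (n : ℕ) : Has (Finset (Fin n)) (n - n / 4) := by
  induction n using Nat.strong_induction_on with
  | _ n ih =>
    rcases Nat.lt_or_ge n 4 with h | h
    · rcases n with _ | n
      · exact has_zero
      · have h1 := (ih n (by omega)).add has_one
        have h2 : n - n / 4 + 1 = n + 1 - (n + 1) / 4 := by omega
        rwa [h2] at h1
    · obtain ⟨m, rfl⟩ := Nat.exists_eq_add_of_le' h
      have h1 := (ih m (by omega)).add has_four
      have h2 : m - m / 4 + 3 = m + 4 - (m + 4) / 4 := by omega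
      rwa [h2] at h1

/-- The local dimension of the Boolean lattice `2^n` is at most `n - ⌊n / 4⌋`; so it is smaller than
`n` for all `n ≥ 4`. The local dimension is subadditive for products of finite ordered sets. -/
theorem result :
    ldim (Finset (Fin 4)) ≤ 3 ∧
    (∀ n : ℕ, ldim (Finset (Fin n)) ≤ n - n / 4) ∧
    (∀ n : ℕ, 4 ≤ n → ldim (Finset (Fin n)) < n) ∧
    (∀ (P Q : Type) [PartialOrder P] [PartialOrder Q] [Fintype P] [Fintype Q],
      ldim (P × Q) ≤ ldim P + ldim Q) := by
  refine ⟨Nat.sInf_le has_four, fun n => Nat.sInf_le (has_all n), fun n hn => ?_, ?_⟩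
  · exact lt_of_le_of_lt (Nat.sInf_le (has_all n)) (by omega)
  · intro P Q _ _ _ _
    exact ldim_prod

end Pool.Agent.Results.MP_666a49_co.BooleanLattice
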